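import Mathlib
import Pool.Agent.H744R2.KZ.Props

open scoped ComplexOrder InnerProductSpace ComplexConjugate Topology
open Finset Filter

namespace H744R2.KZ

open H759R2.Kad

universe u

theorem prove_F_gns : F_gns.{u} := by
  intro B _ _ _ φ h1 hpos
  have hnn : ∀ a : B, 0 ≤ a → 0 ≤ φ a := by
    intro a ha
    obtain ⟨b, rfl⟩ := CStarAlgebra.nonneg_iff_eq_star_mul_self.mp ha
    exact hpos b
  let f : B →ₚ[ℂ] ℂ := PositiveLinearMap.mk₀ φ hnn
  have hf : ∀ a, f a = φ a := fun a => rfl
  refine ⟨f.GNS, inferInstance, inferInstance, inferInstance, f.gnsStarAlgHom,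
    ((f.toPreGNS 1 : f.PreGNS) : f.GNS), ?_, ?_, ?_⟩
  · rw [UniformSpace.Completion.norm_coe, f.preGNS_norm_def]
    simp [hf, h1]
  · intro a
    have h2 : f.gnsStarAlgHom a ((f.toPreGNS 1 : f.PreGNS) : f.GNS)
        = ((f.toPreGNS a : f.PreGNS) : f.GNS) := by
      change f.gnsNonUnitalStarAlgHom a ((f.toPreGNS 1 : f.PreGNS) : f.GNS) = _
      rw [PositiveLinearMap.gnsNonUnitalStarAlgHom_apply_coe]
      simp
    rw [h2, UniformSpace.Completion.inner_coe, f.preGNS_inner_def]
    simp [hf]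
  · intro x hx
    have h2 : ∀ a, f.gnsStarAlgHom a ((f.toPreGNS 1 : f.PreGNS) : f.GNS)
        = ((f.toPreGNS a : f.PreGNS) : f.GNS) := by
      intro a
      change f.gnsNonUnitalStarAlgHom a ((f.toPreGNS 1 : f.PreGNS) : f.GNS) = _
      rw [PositiveLinearMap.gnsNonUnitalStarAlgHom_apply_coe]
      simp
    ext c
    induction c using UniformSpace.Completion.induction_on with
    | hp => exact isClosed_eq x.continuous continuous_const
    | ih c =>
      have h3 := hx (f.ofPreGNS c)
      rw [h2, f.toPreGNS_ofPreGNS] at h3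
      simpa using h3

end H744R2.KZ
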