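import Mathlib
import Pool.Agent.H744R2.KZ.Props

open scoped ComplexOrder InnerProductSpace ComplexConjugate Topology
open Finset Filter

namespace H744R2.KZ

open H759R2.Kad

universe u

namespace YFamaux

variable {B : Type u} [CStarAlgebra B] [PartialOrder B] [StarOrderedRing B]

/-- a family with row sum one and column sum at most `q` -/
def Fam (B : Type u) [CStarAlgebra B] [PartialOrder B] [StarOrderedRing B] (q : ℝ) : Prop :=
  ∃ (m : ℕ) (y : Fin m → B), ∑ j, star (y j) * y j = 1 ∧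
    ∑ j, y j * star (y j) ≤ algebraMap ℝ B q

theorem sum_prod {m n : ℕ} (f : Fin m → Fin n → B) :
    ∑ k : Fin (m * n), f (finProdFinEquiv.symm k).1 (finProdFinEquiv.symm k).2
      = ∑ i, ∑ j, f i j := by
  rw [← Fintype.sum_prod_type' f]
  exact Equiv.sum_comp finProdFinEquiv.symm (fun p : Fin m × Fin n => f p.1 p.2)

theorem Fam.mul {q r : ℝ} (hr : 0 ≤ r) (h1 : Fam B q) (h2 : Fam B r) : Fam B (r * q) := by
  obtain ⟨m, y, hy1, hy2⟩ := h1
  obtain ⟨n, z, hz1, hz2⟩ := h2
  refine ⟨m * n, fun k => y (finProdFinEquiv.symm k).1 * z (finProdFinEquiv.symm k).2, ?_, ?_⟩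
  · rw [sum_prod (fun i j => star (y i * z j) * (y i * z j)), Finset.sum_comm]
    have h3 : ∀ j, ∑ i, star (y i * z j) * (y i * z j) = star (z j) * z j := by
      intro j
      have h4 : ∀ i, star (y i * z j) * (y i * z j) = star (z j) * (star (y i) * y i) * z j := by
        intro i
        rw [star_mul]; simp only [mul_assoc]
      simp only [h4]
      rw [← Finset.sum_mul, ← Finset.mul_sum, hy1, mul_one]
    simp only [h3]
    exact hz1
  · rw [sum_prod (fun i j => (y i * z j) * star (y i * z j))]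
    have h3 : ∀ i, ∑ j, (y i * z j) * star (y i * z j) ≤ r • (y i * star (y i)) := by
      intro i
      have h4 : ∀ j, (y i * z j) * star (y i * z j) = y i * (z j * star (z j)) * star (y i) := by
        intro j
        rw [star_mul]; simp only [mul_assoc]
      simp only [h4]
      rw [← Finset.sum_mul, ← Finset.mul_sum]
      refine (star_right_conjugate_le_conjugate hz2 (y i)).trans (le_of_eq ?_)
      rw [← Algebra.commutes, mul_assoc, ← Algebra.smul_def]
    refine (Finset.sum_le_sum fun i _ => h3 i).trans ?_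
    rw [← Finset.smul_sum]
    refine (smul_le_smul_of_nonneg_left hy2 hr).trans (le_of_eq ?_)
    rw [Algebra.smul_def, ← map_mul]

theorem Fam.pow {q : ℝ} (hq : 0 ≤ q) (h : Fam B q) (r : ℕ) : Fam B (q ^ (r + 1)) := by
  induction r with
  | zero => simpa using h
  | succ r ih =>
    rw [pow_succ, mul_comm]
    exact Fam.mul hq ih h

end YFamaux

open YFamaux in
theorem prove_Y_fam : Y_fam.{u} := by
  intro B _ _ _ h ε hε
  obtain ⟨m, x, hx⟩ := h
  rcases subsingleton_or_nontrivial B with hB | hB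
  · refine ⟨0, fun _ => 0, Subsingleton.elim _ _, ?_⟩
    simp only [Finset.univ_eq_empty, Finset.sum_empty, norm_zero]
    exact hε.le
  set a : B := ∑ j, star (x j) * x j with ha
  set b : B := ∑ j, x j * star (x j) with hb
  have ha0 : 0 ≤ a := Finset.sum_nonneg fun j _ => star_mul_self_nonneg (x j)
  have hb0 : 0 ≤ b := Finset.sum_nonneg fun j _ => mul_star_self_nonneg (x j)
  have h1a : (1 : B) ≤ a := le_trans (le_add_of_nonneg_right hb0) hx
  have hc1 : 1 ≤ ‖a‖ := by
    have h2 := CStarAlgebra.norm_le_norm_of_nonneg_of_le (a := (1 : B)) (b := a) zero_le_one h1a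
    rwa [CStarRing.norm_one] at h2
  set c : ℝ := ‖a‖ with hc
  have hc0 : 0 < c := by linarith
  have hac : a ≤ algebraMap ℝ B c := IsSelfAdjoint.le_algebraMap_norm_self (.of_nonneg ha0)
  -- `1 - a / c`
  have hle : c⁻¹ • a ≤ 1 := by
    have h2 := smul_le_smul_of_nonneg_left hac (inv_nonneg.mpr hc0.le)
    rw [Algebra.algebraMap_eq_smul_one, smul_smul, inv_mul_cancel₀ hc0.ne', one_smul] at h2
    exact h2
  have hd0 : 0 ≤ 1 - c⁻¹ • a := sub_nonneg.mpr hle
  set g : B := CFC.sqrt (1 - c⁻¹ • a) with hg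
  have hg2 : g * g = 1 - c⁻¹ • a := CFC.sqrt_mul_sqrt_self _ hd0
  have hgs : star g = g := (IsSelfAdjoint.of_nonneg (CFC.sqrt_nonneg _)).star_eq
  have hs : (√c)⁻¹ * (√c)⁻¹ = c⁻¹ := by
    rw [← mul_inv, Real.mul_self_sqrt hc0.le]
  have hq0 : 0 ≤ 1 - c⁻¹ := by
    rw [sub_nonneg]
    exact inv_le_one_of_one_le₀ hc1
  have hq1 : 1 - c⁻¹ < 1 := by
    have : 0 < c⁻¹ := inv_pos.mpr hc0
    linarith
  have hF : Fam B (1 - c⁻¹) := by
    refine ⟨m + 1, Fin.snoc (fun j => (√c)⁻¹ • x j) g, ?_, ?_⟩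
    · rw [Fin.sum_univ_castSucc]
      simp only [Fin.snoc_castSucc, Fin.snoc_last, star_smul, smul_mul_smul_comm, star_trivial, hs,
        hgs, hg2]
      rw [← Finset.smul_sum, ← ha]
      abel
    · rw [Fin.sum_univ_castSucc]
      simp only [Fin.snoc_castSucc, Fin.snoc_last, star_smul, smul_mul_smul_comm, star_trivial, hs,
        hgs, hg2]
      rw [← Finset.smul_sum, ← hb]
      have h2 : c⁻¹ • (1 : B) ≤ c⁻¹ • (a - b) := by
        apply smul_le_smul_of_nonneg_left _ (inv_nonneg.mpr hc0.le)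
        exact le_sub_right_of_add_le hx
      rw [map_sub, map_one, Algebra.algebraMap_eq_smul_one]
      calc c⁻¹ • b + (1 - c⁻¹ • a) = 1 - c⁻¹ • (a - b) := by rw [smul_sub]; abel
        _ ≤ 1 - c⁻¹ • 1 := sub_le_sub_left h2 1
  obtain ⟨r, hr⟩ := exists_pow_lt_of_lt_one hε hq1
  obtain ⟨m', y, hy1, hy2⟩ := hF.pow hq0 r
  refine ⟨m', y, hy1, ?_⟩
  have h3 : 0 ≤ ∑ j, y j * star (y j) := Finset.sum_nonneg fun j _ => mul_star_self_nonneg (y j)
  have h4 : ‖∑ j, y j * star (y j)‖ ≤ (1 - c⁻¹) ^ (r + 1) :=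
    (CStarAlgebra.norm_le_iff_le_algebraMap _ (pow_nonneg hq0 _) h3).mpr hy2
  refine h4.trans (le_trans ?_ hr.le)
  exact pow_le_pow_of_le_one hq0 hq1.le (Nat.le_succ r)

end H744R2.KZ
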